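import Pool.Agent.Helper57.QZ.Stmts2
import Pool.Agent.Helper2.QZ.UV

/-! QZ row VT: the upper bound for `|Vy|` along the line. -/

set_option autoImplicit false

namespace Pool.Agent.Helper57.QZ

open MeasureTheory Set Filter Topology

namespace S2

theorem log_le_sqrt {x : ℝ} (hx : 0 < x) : Real.log x ≤ Real.sqrt x := by
  have hs : 0 < Real.sqrt x := Real.sqrt_pos.2 hx
  have h1 : Real.log (Real.sqrt x / Real.exp 1) ≤ Real.sqrt x / Real.exp 1 - 1 :=
    Real.log_le_sub_one_of_pos (by positivity)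
  rw [Real.log_div hs.ne' (Real.exp_pos 1).ne', Real.log_exp, Real.log_sqrt hx.le] at h1
  have h2 : Real.sqrt x / Real.exp 1 ≤ Real.sqrt x / 2 := by
    apply div_le_div_of_nonneg_left hs.le (by norm_num)
    have := Real.exp_one_gt_d9
    linarith
  linarith

theorem aa_log_le {σ : ℝ} (hσ : 1 / 2 ≤ σ) (p : ℕ) (hp : 1 ≤ p) : aa σ p * Real.log p ≤ 1 := by
  have hp0 : (0 : ℝ) < p := by exact_mod_cast hp
  have hp1 : (1 : ℝ) ≤ p := by exact_mod_cast hp
  have h1 : aa σ p ≤ (Real.sqrt p)⁻¹ := by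
    rw [aa, Real.sqrt_eq_rpow, ← Real.rpow_neg hp0.le]
    exact Real.rpow_le_rpow_of_exponent_le hp1 (by linarith)
  have hs : 0 < Real.sqrt p := Real.sqrt_pos.2 hp0
  calc aa σ p * Real.log p ≤ (Real.sqrt p)⁻¹ * Real.sqrt p :=
        mul_le_mul h1 (log_le_sqrt hp0) (Real.log_nonneg hp1) (by positivity)
    _ = 1 := inv_mul_cancel₀ hs.ne'

theorem re_rot_Vy (y : ℕ) (σ α : ℝ) (φ : Pr y → ℝ) :
    (Complex.exp (-((α : ℂ) * Complex.I)) * Vy y σ φ).re =
      ∑ p : Pr y, aa σ p * Real.log p * Real.cos (φ p + α) := by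
  rw [Vy, Finset.mul_sum, Complex.re_sum]
  refine Finset.sum_congr rfl fun p _ => ?_
  rw [mul_left_comm, ← Complex.exp_add, Complex.re_ofReal_mul]
  congr 1
  have e1 : -((α : ℂ) * Complex.I) + -((φ p : ℂ) * Complex.I) =
      ((-(φ p + α) : ℝ) : ℂ) * Complex.I := by
    push_cast
    ring
  rw [e1, Complex.exp_ofReal_mul_I_re, Real.cos_neg]

end S2

open S2

/-- (VT) -/
theorem vt_of (hU : ST_UT) (h4 : ST_SM4) (h5 : ST_SM5) : ST_VT := by
  intro ε hε η hη
  obtain ⟨C, z4, hz4, hC, H4⟩ := h4 ε hε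
  obtain ⟨c5, z5, hz5, hc5, H5⟩ := h5
  have hη0 : 0 < η := hη.1
  have hη1 : η < 1 := hη.2
  obtain ⟨J, hJ⟩ : ∃ J : ℕ, J = ⌈Real.pi / (η / 2)⌉₊ := ⟨_, rfl⟩
  obtain ⟨c, hc⟩ : ∃ c : ℝ, c = η * c5 / 4 := ⟨_, rfl⟩
  have hc0 : 0 < c := by rw [hc]; positivity
  obtain ⟨K, hK⟩ : ∃ K : ℝ, K = Real.log (4 * (2 * J + 1)) / c := ⟨_, rfl⟩
  have hlJ : 0 ≤ Real.log (4 * (2 * J + 1)) :=
    Real.log_nonneg (by linarith [Nat.cast_nonneg (α := ℝ) J])
  have hK0 : 0 ≤ K := by rw [hK]; positivity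
  refine ⟨c, max (max z4 z5) (max (Real.exp (2 * C / (η * c5))) (K ^ 2)), hc0, ?_⟩
  intro y k σ z T hσ hz hzy hk hT hk8 hT2
  have hz4' : z4 ≤ z := (le_max_left _ _).trans ((le_max_left _ _).trans hz)
  have hz5' : z5 ≤ z := (le_max_right _ _).trans ((le_max_left _ _).trans hz)
  have hzC : Real.exp (2 * C / (η * c5)) ≤ z :=
    (le_max_left _ _).trans ((le_max_right _ _).trans hz)
  have hzK : K ^ 2 ≤ z := (le_max_right _ _).trans ((le_max_right _ _).trans hz)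
  have hz3 : 3 ≤ z := hz4.trans hz4'
  have hz0 : 0 < z := by linarith
  have hσ1 : 1 / 2 ≤ σ := by linarith [hσ.1, hε.1]
  have hy1 : 1 ≤ y := by
    have : (1 : ℝ) ≤ y := by linarith
    exact_mod_cast this
  obtain ⟨L, hL⟩ : ∃ L : ℝ, L = Real.log z := ⟨_, rfl⟩
  have hLpos : 0 < L := by rw [hL]; exact Real.log_pos (by linarith)
  have hL1 : 1 ≤ L := by
    rw [hL, Real.le_log_iff_exp_le hz0]
    have := Real.exp_one_lt_d9
    linarith
  have hLC : 2 * C / (η * c5) ≤ L := by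
    rw [hL, Real.le_log_iff_exp_le hz0]
    exact hzC
  obtain ⟨s, hs⟩ : ∃ s : ℝ, s = z ^ σ := ⟨_, rfl⟩
  have hs0 : 0 < s := by rw [hs]; positivity
  have hsK : K ≤ s := by
    have h1 : K ≤ Real.sqrt z := Real.le_sqrt_of_sq_le hzK
    have h3 : Real.sqrt z ≤ s := by
      rw [hs, Real.sqrt_eq_rpow]
      exact Real.rpow_le_rpow_of_exponent_le (by linarith) hσ1
    exact h1.trans h3
  have hH4 := H4 y σ z hσ hz4'
  have hH5 := H5 y σ z ⟨hσ1, hσ.2⟩ hz5' hzy
  rw [← hs] at hH4 hH5 hk8 hT2 ⊢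
  rw [← hL] at hH4 hH5
  obtain ⟨m, hm⟩ : ∃ m : ℝ, m = omy y σ s := ⟨_, rfl⟩
  rw [← hm] at hH5 hk8 ⊢
  have hz1 : 0 < z ^ (1 - σ) := by positivity
  have hm0 : 0 ≤ m := le_trans (by positivity) hH5
  have hszz : s * z ^ (1 - σ) = z := by
    rw [hs, ← Real.rpow_add hz0, add_sub_cancel, Real.rpow_one]
  have hlam : s / L ≤ s := div_le_self hs0.le hL1
  -- the algebra
  have halg : ∑ p : Pr y, ell (s / L * (aa σ p * Real.log p)) =
      ∑ p : Pr y, Bf (Real.log p / L) (s * aa σ p) - Ly y σ s + s / L * m := by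
    rw [hm, Ly, omy, Finset.mul_sum, ← Finset.sum_sub_distrib, ← Finset.sum_add_distrib]
    refine Finset.sum_congr rfl fun p _ => ?_
    rw [Bf]
    have e1 : Real.log p / L * (s * aa σ p) = s / L * (aa σ p * Real.log p) := by
      field_simp
    rw [e1]
    field_simp
    ring
  have hdir : ∀ α : ℝ, volume.real {t : ℝ | t ∈ Icc T (2 * T) ∧ (1 + η / 2) * m ≤
      (Complex.exp (-((α : ℂ) * Complex.I)) * Vy y σ (lin y t)).re} ≤
      4 * T * Real.exp (-(Ly y σ s) - η * c5 / 2 * s) := by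
    intro α
    have hset : {t : ℝ | t ∈ Icc T (2 * T) ∧ (1 + η / 2) * m ≤
        (Complex.exp (-((α : ℂ) * Complex.I)) * Vy y σ (lin y t)).re} =
        {t : ℝ | t ∈ Icc T (2 * T) ∧ (1 + η / 2) * m ≤
          ∑ p : Pr y, (fun p : Pr y => aa σ p * Real.log p) p * Real.cos (lin y t p + α)} := by
      ext t
      simp only [Set.mem_ofPred_eq, re_rot_Vy]
    rw [hset]
    have hu : ∀ p : Pr y, 0 ≤ (fun p : Pr y => aa σ p * Real.log p) p ∧
        (fun p : Pr y => aa σ p * Real.log p) p ≤ 1 := by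
      intro p
      have hp : 1 ≤ (p : ℕ) := (Nat.prime_of_mem_primesBelow p.2).one_lt.le
      have hp1 : (1 : ℝ) ≤ ((p : ℕ) : ℝ) := by exact_mod_cast hp
      refine ⟨?_, aa_log_le hσ1 p hp⟩
      exact mul_nonneg (by unfold aa; positivity) (Real.log_nonneg hp1)
    have hlv : s / L * ((1 + η / 2) * m) ≤ (k : ℝ) / 4 := by
      have h1 : s / L * ((1 + η / 2) * m) ≤ s * (2 * m) := by
        apply mul_le_mul hlam _ (by positivity) hs0.le
        exact mul_le_mul_of_nonneg_right (by linarith) hm0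
      linarith
    have hTT : 2 * (1 + s / L * y) ^ (2 * k) * (y : ℝ) ^ (2 * k) ≤ T := by
      refine le_trans ?_ hT2
      have h1 : (1 + s / L * y) ^ (2 * k) ≤ (1 + s * y) ^ (2 * k) := by
        apply pow_le_pow_left₀ (by positivity)
        have : s / L * (y : ℝ) ≤ s * y := mul_le_mul_of_nonneg_right hlam (by positivity)
        linarith
      apply mul_le_mul_of_nonneg_right _ (by positivity)
      linarith
    refine (hU y k (fun p : Pr y => aa σ p * Real.log p) α (s / L) ((1 + η / 2) * m) T hy1 hk hu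
      (by positivity) (by positivity) hlv hT hTT).trans ?_
    refine mul_le_mul_of_nonneg_left (Real.exp_le_exp.2 ?_) (by positivity)
    rw [halg]
    have h6 : C * z / L ^ 2 ≤ η * c5 / 2 * (z / L) := by
      rw [div_le_iff₀ (by positivity)] at hLC
      have h7 : C * z / L ^ 2 = C * (z / L) / L := by
        field_simp
      rw [h7, div_le_iff₀ hLpos]
      have h8 : 0 < z / L := by positivity
      nlinarith
    have h9 : s / L * (η / 2) * (c5 * (L + z ^ (1 - σ))) ≤ s / L * (η / 2) * m :=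
      mul_le_mul_of_nonneg_left hH5 (by positivity)
    have h10 : s / L * (η / 2) * (c5 * (L + z ^ (1 - σ))) =
        η * c5 / 2 * s + η * c5 / 2 * (z / L) := by
      have h14 : z / L = s * z ^ (1 - σ) / L := by rw [hszz]
      rw [h14]
      field_simp
    have h11 : s / L * ((1 + η / 2) * m) = s / L * m + s / L * (η / 2) * m := by ring
    rw [h11]
    linarith
  -- the union bound
  have hsub : {t : ℝ | t ∈ Icc T (2 * T) ∧ (1 + η) * m ≤ ‖Vy y σ (lin y t)‖} ⊆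
      ⋃ j ∈ Finset.Icc (-(J : ℤ)) J, {t : ℝ | t ∈ Icc T (2 * T) ∧ (1 + η / 2) * m ≤
        (Complex.exp (-((((j : ℝ) * (η / 2) : ℝ) : ℂ) * Complex.I)) * Vy y σ (lin y t)).re} := by
    intro t ht
    obtain ⟨j, hj1, hj2⟩ := net hη0 hη1 hm0 (Vy y σ (lin y t)) ht.2
    rw [mem_iUnion₂]
    refine ⟨j, ?_, ht.1, hj2⟩
    rw [hJ]
    exact hj1
  have hfin : volume (⋃ j ∈ Finset.Icc (-(J : ℤ)) J, {t : ℝ | t ∈ Icc T (2 * T) ∧
      (1 + η / 2) * m ≤
        (Complex.exp (-((((j : ℝ) * (η / 2) : ℝ) : ℂ) * Complex.I)) * Vy y σ (lin y t)).re}) ≠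
        ⊤ := by
    refine ne_top_of_le_ne_top (b := volume (Icc T (2 * T))) ?_ (measure_mono ?_)
    · rw [Real.volume_Icc]
      exact ENNReal.ofReal_ne_top
    · intro t ht
      rw [mem_iUnion₂] at ht
      obtain ⟨j, _, hj⟩ := ht
      exact hj.1
  have hcard : ((Finset.Icc (-(J : ℤ)) J).card : ℝ) = 2 * J + 1 := by
    rw [Int.card_Icc]
    have e1 : ((J : ℤ) + 1 - -(J : ℤ)).toNat = 2 * J + 1 := by omega
    rw [e1]
    push_cast
    ring
  calc volume.real {t : ℝ | t ∈ Icc T (2 * T) ∧ (1 + η) * m ≤ ‖Vy y σ (lin y t)‖}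
      ≤ volume.real (⋃ j ∈ Finset.Icc (-(J : ℤ)) J, {t : ℝ | t ∈ Icc T (2 * T) ∧
        (1 + η / 2) * m ≤
        (Complex.exp (-((((j : ℝ) * (η / 2) : ℝ) : ℂ) * Complex.I)) * Vy y σ (lin y t)).re}) :=
        measureReal_mono hsub hfin
    _ ≤ ∑ j ∈ Finset.Icc (-(J : ℤ)) J, volume.real {t : ℝ | t ∈ Icc T (2 * T) ∧
        (1 + η / 2) * m ≤
        (Complex.exp (-((((j : ℝ) * (η / 2) : ℝ) : ℂ) * Complex.I)) * Vy y σ (lin y t)).re} :=
        measureReal_biUnion_finset_le _ _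
    _ ≤ ∑ _j ∈ Finset.Icc (-(J : ℤ)) J,
        4 * T * Real.exp (-(Ly y σ s) - η * c5 / 2 * s) :=
        Finset.sum_le_sum fun j _ => hdir _
    _ = T * ((4 * (2 * J + 1)) * Real.exp (-(Ly y σ s) - η * c5 / 2 * s)) := by
        rw [Finset.sum_const, nsmul_eq_mul, hcard]
        ring
    _ = T * Real.exp (Real.log (4 * (2 * J + 1)) + (-(Ly y σ s) - η * c5 / 2 * s)) := by
        rw [Real.exp_add, Real.exp_log (by positivity)]
    _ ≤ T * Real.exp (-(Ly y σ s) - c * s) := by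
        refine mul_le_mul_of_nonneg_left (Real.exp_le_exp.2 ?_) hT.le
        have h12 : Real.log (4 * (2 * J + 1)) ≤ c * s := by
          rw [hK, div_le_iff₀ hc0] at hsK
          linarith
        have h13 : η * c5 / 2 * s = c * s + c * s := by
          rw [hc]
          ring
        linarith

end Pool.Agent.Helper57.QZ
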